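import Mathlib
import Pool.Agent.H52.TBG

set_option autoImplicit false
open Pool.Agent.H52.TBG MeasureTheory

namespace Pool.Agent.Results.MP_e7d22a_nt.AlmostSure

/-- For k = 2, Lebesgue-almost every choice of angles and translations gives a dense forest. -/
theorem result :
    ∃ k : ℕ, 1 ≤ k ∧
      ∀ᵐ p : (Fin k → ℝ) × (Fin k → ℂ) ∂volume, DenseForest (TBG p.2 p.1) := by
  refine ⟨2, by norm_num, ?_⟩
  let L : (Fin 2 → ℝ) →ₗ[ℝ] ℝ := 
    (LinearMap.proj 0 : (Fin 2 → ℝ) →ₗ[ℝ] ℝ) - (LinearMap.proj 1 : (Fin 2 → ℝ) →ₗ[ℝ] ℝ)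
  have hL : Function.Surjective L := fun c => ⟨![c, 0], by simp [L]⟩
  have h1 : ∀ᵐ θ : Fin 2 → ℝ ∂volume, L θ ∈ Badᶜ :=
    (ae_comp_linearMap_mem_iff L volume volume hL Bad_countable.measurableSet.compl).2
      (Bad_countable.ae_notMem volume)
  have h2 := (Measure.quasiMeasurePreserving_fst (μ := (volume : Measure (Fin 2 → ℝ)))
    (ν := (volume : Measure (Fin 2 → ℂ)))).ae h1
  refine h2.mono fun p hp => forest_of_not_bad _ _ ?_
  simpa [L] using hp

end Pool.Agent.Results.MP_e7d22a_nt.AlmostSure
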